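import Pool.Agent.W978.QO.Stm

/-! QO-SL: slices. -/

set_option autoImplicit false

namespace Pool.Agent.W654.QO

open Pool.Agent.W978.QN Pool.Agent.W978.QO Finset

/-- integers with small pairwise distances -/
theorem card_le_of_dist (s : Finset ℤ) (L : ℝ) (hL : 0 ≤ L)
    (h : ∀ x ∈ s, ∀ y ∈ s, (|x - y| : ℝ) ≤ L) : (s.card : ℝ) ≤ 1 + L := by
  rcases s.eq_empty_or_nonempty with rfl | hs
  · simp; linarith
  · have hsub : s ⊆ Finset.Icc (s.min' hs) (s.min' hs + ⌊L⌋) := by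
      intro x hx
      rw [Finset.mem_Icc]
      refine ⟨Finset.min'_le s x hx, ?_⟩
      have h1 := h x hx (s.min' hs) (Finset.min'_mem s hs)
      have h2 : ((x - s.min' hs : ℤ) : ℝ) ≤ L := by
        push_cast
        exact (le_abs_self _).trans h1
      have h3 := Int.le_floor.mpr h2
      linarith
    have h4 := Finset.card_le_card hsub
    rw [Int.card_Icc] at h4
    have h5 : (0 : ℤ) ≤ ⌊L⌋ := Int.floor_nonneg.mpr hL
    have h6 : (s.card : ℤ) ≤ ⌊L⌋ + 1 := by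
      have : ((s.min' hs + ⌊L⌋ + 1 - s.min' hs).toNat : ℤ) = ⌊L⌋ + 1 := by
        rw [Int.toNat_of_nonneg (by linarith)]
        ring
      rw [← this]
      exact_mod_cast h4
    have h7 : (s.card : ℝ) ≤ (⌊L⌋ : ℝ) + 1 := by exact_mod_cast h6
    have h8 := Int.floor_le L
    linarith

theorem third : ∀ a b : Fin 3, a ≠ b → ∃ e : Fin 3, e ≠ a ∧ e ≠ b := by decide

theorem sum3 (a b e : Fin 3) (h1 : a ≠ b) (h2 : e ≠ a) (h3 : e ≠ b) (x : Fin 3 → ℤ) :
    ∑ j, x j = x a + x b + x e := by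
  rw [Fin.sum_univ_three]
  fin_cases a <;> fin_cases b <;> fin_cases e <;> simp_all <;> ring

theorem all3 : ∀ a b e : Fin 3, a ≠ b → e ≠ a → e ≠ b → ∀ i : Fin 3, i = a ∨ i = b ∨ i = e := by
  decide

theorem cop (q q' : Fin 3 → ℤ) (G : ℤ) (h : ∀ i, G ∣ cp q q' i) (i j : Fin 3) :
    G ∣ q j * q' i - q' j * q i := by
  have h0 := h 0
  have h1 := h 1
  have h2 := h 2
  simp only [cp, Matrix.cons_val_zero, Matrix.cons_val_one, Matrix.cons_val] at h0 h1 h2
  fin_cases i <;> fin_cases j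
  · simp only [Fin.zero_eta]; exact ⟨0, by ring⟩
  · simp only [Fin.zero_eta, Fin.mk_one]
    have := (dvd_neg.mpr h2)
    exact this.trans (dvd_of_eq (by ring))
  · simp only [Fin.zero_eta, Fin.reduceFinMk]
    exact h1.trans (dvd_of_eq (by ring))
  · simp only [Fin.zero_eta, Fin.mk_one]
    exact h2.trans (dvd_of_eq (by ring))
  · simp only [Fin.mk_one]; exact ⟨0, by ring⟩
  · simp only [Fin.mk_one, Fin.reduceFinMk]
    exact (dvd_neg.mpr h0).trans (dvd_of_eq (by ring))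
  · simp only [Fin.zero_eta, Fin.reduceFinMk]
    exact (dvd_neg.mpr h1).trans (dvd_of_eq (by ring))
  · simp only [Fin.mk_one, Fin.reduceFinMk]
    exact h0.trans (dvd_of_eq (by ring))
  · simp only [Fin.reduceFinMk]; exact ⟨0, by ring⟩

/-- `q = (u . q) q0` modulo `G` -/
theorem cong (q0 q u : Fin 3 → ℤ) (hu : ∑ i, u i * q0 i = 1) (G : ℤ)
    (h : ∀ i, G ∣ cp q0 q i) (i : Fin 3) : G ∣ q i - (∑ j, u j * q j) * q0 i := by
  have e : q i - (∑ j, u j * q j) * q0 i = ∑ j, u j * (q0 j * q i - q j * q0 i) := by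
    rw [Finset.sum_mul]
    have : q i = ∑ j, u j * q0 j * q i := by rw [← Finset.sum_mul, hu, one_mul]
    conv_lhs => rw [this]
    rw [← Finset.sum_sub_distrib]
    exact Finset.sum_congr rfl fun j _ => by ring
  rw [e]
  exact Finset.dvd_sum fun j _ => (cop q0 q G h i j).mul_left _

theorem div_inj (G x y : ℤ) (hd : G ∣ x - y) (h : x / G = y / G) : x = y := by
  have h1 : x % G = y % G := Int.emod_eq_emod_iff_emod_sub_eq_zero.mpr (Int.emod_eq_zero_of_dvd hd)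
  rw [← Int.mul_ediv_add_emod x G, ← Int.mul_ediv_add_emod y G, h, h1]

theorem div_sub (G x y : ℤ) (hd : G ∣ x - y) :
    ((x / G - y / G : ℤ) : ℝ) * G = ((x - y : ℤ) : ℝ) := by
  have h1 : x % G = y % G := Int.emod_eq_emod_iff_emod_sub_eq_zero.mpr (Int.emod_eq_zero_of_dvd hd)
  have h2 : (x / G - y / G) * G = x - y := by
    have e1 := Int.mul_ediv_add_emod x G
    have e2 := Int.mul_ediv_add_emod y G
    rw [h1] at e1
    linear_combination e1 - e2
  exact_mod_cast h2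

/-- one class -/
theorem fib (M : Fin 3 → Fin 3 → ℤ) (A c X Y : ℝ) (G : ℤ) (hG : 0 < G) (hc : 0 < c) (hX : 0 < X)
    (hY : 0 ≤ Y) (hA : 0 ≤ A) (hM : ∀ k j, ((|M k j| : ℤ) : ℝ) ≤ A * X) (k k' a b e : Fin 3)
    (h1 : a ≠ b) (h2 : e ≠ a) (h3 : e ≠ b)
    (hmn : c * X ^ 2 ≤ |((mnr M k k' a b : ℤ) : ℝ)|) (S : Finset (Fin 3 → ℤ))
    (hS : ∀ q ∈ S, ∀ k, ((|wv M q k| : ℤ) : ℝ) ≤ Y)
    (hSe : ∀ q ∈ S, ∀ q' ∈ S, q e = q' e) (hSG : ∀ q ∈ S, ∀ q' ∈ S, ∀ i, G ∣ q i - q' i) :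
    (S.card : ℝ) ≤ (1 + 4 * A * Y / (c * X) / G) ^ 2 := by
  classical
  have hGR : (0 : ℝ) < G := by exact_mod_cast hG
  have hd : ∀ q ∈ S, ∀ q' ∈ S, ((|q a - q' a| : ℤ) : ℝ) ≤ 4 * A * Y / (c * X) ∧
      ((|q b - q' b| : ℤ) : ℝ) ≤ 4 * A * Y / (c * X) := by
    intro q hq q' hq'
    have hw : ∀ l, wv M q l - wv M q' l = M l a * (q a - q' a) + M l b * (q b - q' b) := by
      intro l
      unfold wv
      rw [sum3 a b e h1 h2 h3, sum3 a b e h1 h2 h3, hSe q hq q' hq']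
      ring
    have hwl : ∀ l, |((wv M q l - wv M q' l : ℤ) : ℝ)| ≤ 2 * Y := by
      intro l
      have e1 := hS q hq l
      have e2 := hS q' hq' l
      push_cast at e1 e2 ⊢
      have := abs_sub (wv M q l : ℝ) (wv M q' l : ℝ)
      linarith
    have hml : ∀ k j, |((M k j : ℤ) : ℝ)| ≤ A * X := by
      intro k j
      have := hM k j
      push_cast at this
      exact this
    have key : ∀ (x y m1 m2 w1 w2 : ℝ), x * y = m1 * w1 - m2 * w2 → c * X ^ 2 ≤ |y| →
        |m1| ≤ A * X → |m2| ≤ A * X → |w1| ≤ 2 * Y → |w2| ≤ 2 * Y →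
        |x| ≤ 4 * A * Y / (c * X) := by
      intro x y m1 m2 w1 w2 hxy hy hm1 hm2 hw1 hw2
      have e1 : |x| * |y| ≤ A * X * (2 * Y) + A * X * (2 * Y) := by
        rw [← abs_mul, hxy]
        refine (abs_sub _ _).trans ?_
        rw [abs_mul, abs_mul]
        have hAX : 0 ≤ A * X := by positivity
        exact add_le_add (mul_le_mul hm1 hw1 (abs_nonneg _) hAX)
          (mul_le_mul hm2 hw2 (abs_nonneg _) hAX)
      have e2 : |x| * (c * X ^ 2) ≤ |x| * |y| := mul_le_mul_of_nonneg_left hy (abs_nonneg _)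
      rw [le_div_iff₀ (by positivity)]
      have e3 : |x| * (c * X) * X ≤ 4 * A * Y * X := by nlinarith
      exact le_of_mul_le_mul_right e3 hX
    constructor
    · have := key ((q a - q' a : ℤ) : ℝ) ((mnr M k k' a b : ℤ) : ℝ) (M k' b) (M k b)
        ((wv M q k - wv M q' k : ℤ) : ℝ) ((wv M q k' - wv M q' k' : ℤ) : ℝ) (by
          rw [hw k, hw k']; unfold mnr; push_cast; ring) hmn (hml _ _) (hml _ _) (hwl _) (hwl _)
      rw [← Int.cast_abs] at this
      exact this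
    · have := key ((q b - q' b : ℤ) : ℝ) ((mnr M k k' a b : ℤ) : ℝ) (M k a) (M k' a)
        ((wv M q k' - wv M q' k' : ℤ) : ℝ) ((wv M q k - wv M q' k : ℤ) : ℝ) (by
          rw [hw k, hw k']; unfold mnr; push_cast; ring) hmn (hml _ _) (hml _ _) (hwl _) (hwl _)
      rw [← Int.cast_abs] at this
      exact this
  have hD0 : 0 ≤ 4 * A * Y / (c * X) / G := by positivity
  have himg : ∀ j : Fin 3, (∀ q ∈ S, ∀ q' ∈ S, ((|q j - q' j| : ℤ) : ℝ) ≤ 4 * A * Y / (c * X)) →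
      ((S.image (fun q => q j / G)).card : ℝ) ≤ 1 + 4 * A * Y / (c * X) / G := by
    intro j hj
    apply card_le_of_dist _ _ hD0
    intro x hx y hy
    obtain ⟨q, hq, rfl⟩ := Finset.mem_image.mp hx
    obtain ⟨q', hq', rfl⟩ := Finset.mem_image.mp hy
    rw [le_div_iff₀ hGR]
    have e1 := div_sub G (q j) (q' j) (hSG q hq q' hq' j)
    have e2 := hj q hq q' hq'
    rw [Int.cast_abs, ← e1, abs_mul, abs_of_pos hGR] at e2
    push_cast at e2
    exact e2
  have hinj : S.card ≤ ((S.image (fun q => q a / G)) ×ˢ (S.image (fun q => q b / G))).card := by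
    apply Finset.card_le_card_of_injOn (fun q => (q a / G, q b / G))
    · intro q hq
      simp only [Finset.coe_product, Set.mem_prod, Finset.mem_coe]
      exact ⟨Finset.mem_image_of_mem (fun q : Fin 3 → ℤ => q a / G) hq,
        Finset.mem_image_of_mem (fun q : Fin 3 → ℤ => q b / G) hq⟩
    · intro q hq q' hq' hqq
      simp only [Prod.mk.injEq] at hqq
      have ea := div_inj G _ _ (hSG q hq q' hq' a) hqq.1
      have eb := div_inj G _ _ (hSG q hq q' hq' b) hqq.2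
      have ee := hSe q hq q' hq'
      funext i
      rcases all3 a b e h1 h2 h3 i with rfl | rfl | rfl
      · exact ea
      · exact eb
      · exact ee
  rw [Finset.card_product] at hinj
  have e3 : (S.card : ℝ) ≤ ((S.image (fun q => q a / G)).card : ℝ) *
      ((S.image (fun q => q b / G)).card : ℝ) := by exact_mod_cast hinj
  refine e3.trans ?_
  rw [sq]
  exact mul_le_mul (himg a fun q hq q' hq' => (hd q hq q' hq').1)
    (himg b fun q hq q' hq' => (hd q hq q' hq').2) (by positivity) (by positivity)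

theorem key_inj (G h z0 t t' z z' : ℤ) (hG : 0 < G) (hh : 0 < h) (hhG : h ∣ G) (hhz : h ∣ z0)
    (hcop : IsCoprime (z0 / h) (G / h)) (h1 : G ∣ z - t * z0) (h2 : G ∣ z' - t' * z0)
    (e1 : z / h = z' / h) (e2 : (t % G) / (G / h) = (t' % G) / (G / h)) :
    z = z' ∧ G ∣ t - t' := by
  have hz : h ∣ z := by
    have := dvd_add (hhG.trans h1) (hhz.mul_left t)
    simpa using this
  have hz' : h ∣ z' := by
    have := dvd_add (hhG.trans h2) (hhz.mul_left t')
    simpa using this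
  have hzz : z = z' := div_inj h z z' (dvd_sub hz hz') e1
  refine ⟨hzz, ?_⟩
  obtain ⟨G1, rfl⟩ := hhG
  obtain ⟨w0, rfl⟩ := hhz
  rw [Int.mul_ediv_cancel_left _ hh.ne'] at hcop e2
  rw [Int.mul_ediv_cancel_left _ hh.ne'] at hcop
  have h3 : h * G1 ∣ h * ((t - t') * w0) := by
    have := dvd_sub h2 h1
    rw [hzz] at this
    exact this.trans (dvd_of_eq (by ring))
  have h4 : G1 ∣ (t - t') * w0 := (mul_dvd_mul_iff_left hh.ne').mp h3
  have h5 : G1 ∣ t - t' := hcop.symm.dvd_of_dvd_mul_right h4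
  have h6 : G1 ∣ t % (h * G1) - t' % (h * G1) := by
    have e3 := Int.mul_ediv_add_emod t (h * G1)
    have e4 := Int.mul_ediv_add_emod t' (h * G1)
    have : t % (h * G1) - t' % (h * G1) = (t - t') - G1 * (h * (t / (h * G1) - t' / (h * G1))) := by
      linear_combination e3 - e4
    rw [this]
    exact dvd_sub h5 (dvd_mul_right _ _)
  have h7 := div_inj G1 _ _ h6 e2
  exact Int.dvd_of_emod_eq_zero (Int.emod_eq_emod_iff_emod_sub_eq_zero.mp h7)

theorem count (M : Fin 3 → Fin 3 → ℤ) (A c X : ℝ) (X2 Y G : ℕ) (hG : 0 < G) (hc : 0 < c) (hX : 0 < X)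
    (hA : 0 ≤ A) (hM : ∀ k j, ((|M k j| : ℤ) : ℝ) ≤ A * X) (k k' a b e : Fin 3)
    (h1 : a ≠ b) (h2 : e ≠ a) (h3 : e ≠ b)
    (hmn : c * X ^ 2 ≤ |((mnr M k k' a b : ℤ) : ℝ)|) (Q : Finset (Fin 3 → ℤ))
    (hQ : ∀ q ∈ Q, (∀ i, |q i| ≤ X2) ∧ ∀ k, |wv M q k| ≤ Y) (q0 u : Fin 3 → ℤ)
    (hu : ∑ i, u i * q0 i = 1) (hQG : ∀ q ∈ Q, ∀ i, (G : ℤ) ∣ cp q0 q i) :
    (Q.card : ℝ) ≤ (2 * X2 + G) * (1 + 4 * A * Y / (c * X) / G) ^ 2 := by
  classical
  set h : ℕ := Int.gcd (q0 e) G with hh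
  have hh0 : 0 < h := Int.gcd_pos_of_ne_zero_right _ (by exact_mod_cast hG.ne')
  have hhG : (h : ℤ) ∣ G := Int.gcd_dvd_right _ _
  have hhz : (h : ℤ) ∣ q0 e := Int.gcd_dvd_left _ _
  have hcop : IsCoprime (q0 e / (h : ℤ)) ((G : ℤ) / h) := by
    rw [Int.isCoprime_iff_gcd_eq_one]
    exact Int.gcd_ediv_gcd_ediv_gcd (by exact_mod_cast hh0)
  have hGZ : (0 : ℤ) < G := by exact_mod_cast hG
  have hhZ : (0 : ℤ) < h := by exact_mod_cast hh0
  set f : (Fin 3 → ℤ) → ℤ × ℤ := fun q => (q e / h, ((∑ j, u j * q j) % G) / (G / h)) with hf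
  have hcg : ∀ q ∈ Q, ∀ i, (G : ℤ) ∣ q i - (∑ j, u j * q j) * q0 i := fun q hq =>
    cong q0 q u hu G (hQG q hq)
  -- the fibres
  have hfib : ∀ y ∈ Q.image f, (Q.filter (fun q => f q = y)).card ≤
      ⌊(1 + 4 * A * Y / (c * X) / G) ^ 2⌋₊ := by
    intro y _
    apply Nat.le_floor
    have hkey : ∀ q ∈ Q.filter (fun q => f q = y), ∀ q' ∈ Q.filter (fun q => f q = y),
        q e = q' e ∧ (G : ℤ) ∣ (∑ j, u j * q j) - (∑ j, u j * q' j) := by
      intro q hq q' hq'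
      rw [Finset.mem_filter] at hq hq'
      have e0 : f q = f q' := hq.2.trans hq'.2.symm
      simp only [hf, Prod.mk.injEq] at e0
      exact key_inj G h (q0 e) _ _ (q e) (q' e) hGZ hhZ hhG hhz hcop (hcg q hq.1 e)
        (hcg q' hq'.1 e) e0.1 e0.2
    have := fib M A c X Y (G : ℤ) hGZ hc hX (by positivity) hA hM k k' a b e h1 h2 h3 hmn
      (Q.filter (fun q => f q = y)) (fun q hq l => by
        have := (hQ q (Finset.mem_filter.mp hq).1).2 l
        exact_mod_cast this) (fun q hq q' hq' => (hkey q hq q' hq').1) (fun q hq q' hq' i => by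
        have e1 := hcg q (Finset.mem_filter.mp hq).1 i
        have e2 := hcg q' (Finset.mem_filter.mp hq').1 i
        have e3 := (hkey q hq q' hq').2
        have e4 := dvd_add (dvd_sub e1 e2) (e3.mul_right (q0 i))
        exact e4.trans (dvd_of_eq (by ring)))
    exact_mod_cast this
  have hcard := Finset.card_le_mul_card_image Q _ hfib
  -- the number of keys
  have himg : Q.image f ⊆ Finset.Icc (-((X2 / h : ℕ) : ℤ)) ((X2 / h : ℕ) : ℤ) ×ˢ
      Finset.Ico (0 : ℤ) h := by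
    intro y hy
    obtain ⟨q, hq, rfl⟩ := Finset.mem_image.mp hy
    rw [Finset.mem_product, Finset.mem_Icc, Finset.mem_Ico]
    have hqe : (h : ℤ) ∣ q e := by
      have := dvd_add (hhG.trans (hcg q hq e)) (hhz.mul_left (∑ j, u j * q j))
      simpa using this
    have hX2 := (hQ q hq).1 e
    rw [abs_le] at hX2
    obtain ⟨w, hw⟩ := hqe
    have hdiv : q e / h = w := by rw [hw]; exact Int.mul_ediv_cancel_left _ hhZ.ne'
    simp only [hf]
    rw [hdiv]
    have hb1 : w ≤ ((X2 / h : ℕ) : ℤ) := by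
      push_cast
      rw [Int.le_ediv_iff_mul_le hhZ]
      rw [hw] at hX2
      linarith [mul_comm (h : ℤ) w]
    have hb2 : -w ≤ ((X2 / h : ℕ) : ℤ) := by
      push_cast
      rw [Int.le_ediv_iff_mul_le hhZ]
      rw [hw] at hX2
      nlinarith [mul_comm (h : ℤ) w]
    refine ⟨⟨by linarith, hb1⟩, ?_, ?_⟩
    · exact Int.ediv_nonneg (Int.emod_nonneg _ hGZ.ne') (Int.ediv_nonneg hGZ.le hhZ.le)
    · have hGh : (0 : ℤ) < G / h := Int.ediv_pos_of_pos_of_dvd hGZ hhZ.le hhG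
      rw [Int.ediv_lt_iff_lt_mul hGh]
      rw [Int.mul_ediv_cancel' hhG]
      exact Int.emod_lt_of_pos _ hGZ
  have hkc : (Q.image f).card ≤ 2 * X2 + G := by
    refine (Finset.card_le_card himg).trans ?_
    rw [Finset.card_product, Int.card_Icc, Int.card_Ico]
    have e1 : (((X2 / h : ℕ) : ℤ) + 1 - -((X2 / h : ℕ) : ℤ)).toNat = 2 * (X2 / h) + 1 := by
      omega
    have e2 : ((h : ℤ) - 0).toNat = h := by omega
    rw [e1, e2]
    have e3 : X2 / h * h ≤ X2 := Nat.div_mul_le_self _ _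
    have e4 : h ≤ G := Nat.le_of_dvd hG (by exact_mod_cast hhG)
    nlinarith
  have hfl : ((⌊(1 + 4 * A * Y / (c * X) / G) ^ 2⌋₊ : ℕ) : ℝ) ≤
      (1 + 4 * A * Y / (c * X) / G) ^ 2 := Nat.floor_le (by positivity)
  calc (Q.card : ℝ) ≤ ((⌊(1 + 4 * A * Y / (c * X) / G) ^ 2⌋₊ * (Q.image f).card : ℕ) : ℝ) := by
        exact_mod_cast hcard
    _ ≤ (1 + 4 * A * Y / (c * X) / G) ^ 2 * (2 * X2 + G) := by
        push_cast
        refine mul_le_mul hfl ?_ (by positivity) (by positivity)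
        exact_mod_cast hkc
    _ = _ := mul_comm _ _

theorem gdvd (g K n : ℕ) (hg : 0 < g) (h : g ∣ K * n) : g / g.gcd K ∣ n := by
  have hd : 0 < g.gcd K := Nat.gcd_pos_of_pos_left _ hg
  have h1 : (g / g.gcd K) ∣ (K / g.gcd K) * n := by
    apply Nat.dvd_of_mul_dvd_mul_left hd
    rw [Nat.mul_div_cancel' (Nat.gcd_dvd_left g K), ← mul_assoc,
      Nat.mul_div_cancel' (Nat.gcd_dvd_right g K)]
    exact h
  exact (Nat.coprime_div_gcd_div_gcd hd).dvd_of_dvd_mul_left h1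

theorem sl : S_SL := by
  intro A K c hA hK hc
  set L : ℝ := max 1 (4 * A * K / c) with hL
  have hL1 : 1 ≤ L := le_max_left _ _
  have hL2 : 4 * A * K / c ≤ L := le_max_right _ _
  refine ⟨2 * L ^ 2, by positivity, ?_⟩
  intro M X₁ X₂ Y g hX1 hX2 hg hM hmn Q hQ hQg
  have hX1R : (1 : ℝ) ≤ X₁ := by exact_mod_cast hX1
  have hgR : (1 : ℝ) ≤ g := by exact_mod_cast hg
  have hX0 : (0 : ℝ) < X₁ := by linarith
  have hg0 : (0 : ℝ) < g := by linarith
  rcases Q.eq_empty_or_nonempty with rfl | ⟨q0, hq0⟩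
  · simp only [Finset.card_empty, Nat.cast_zero]
    positivity
  obtain ⟨u, hu⟩ := (hQ q0 hq0).1
  obtain ⟨k, k', a, b, hk⟩ := hmn
  have hab : a ≠ b := by
    rintro rfl
    have h0 : mnr M k k' a a = 0 := by unfold mnr; ring
    rw [h0] at hk
    simp only [Int.cast_zero, abs_zero] at hk
    have : 0 < c * (X₁ : ℝ) ^ 2 := by positivity
    linarith
  obtain ⟨e, he1, he2⟩ := third a b hab
  have hd : 0 < g.gcd K := Nat.gcd_pos_of_pos_left _ hg
  have hG : 0 < g / g.gcd K := Nat.div_pos (Nat.le_of_dvd hg (Nat.gcd_dvd_left g K)) hd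
  have hGg : (g / g.gcd K) ≤ g := Nat.div_le_self _ _
  have hGK : g ≤ (g / g.gcd K) * K := by
    calc g = (g / g.gcd K) * g.gcd K := (Nat.div_mul_cancel (Nat.gcd_dvd_left g K)).symm
      _ ≤ _ := Nat.mul_le_mul_left _ (Nat.le_of_dvd hK (Nat.gcd_dvd_right g K))
  have hnm : ∀ (q : Fin 3 → ℤ) (i : Fin 3), |q i| ≤ nm q := by
    intro q i
    fin_cases i <;> simp [nm]
  have hcnt := count M A c X₁ X₂ Y (g / g.gcd K) hG hc hX0 (by positivity) (fun k j => by
      have := hM k j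
      exact_mod_cast this) k k' a b e hab he1 he2 hk Q
    (fun q hq => ⟨fun i => (hnm q i).trans (hQ q hq).2.1, (hQ q hq).2.2⟩) q0 u hu
    (fun q hq i => by
      have h1 := hQg q0 hq0 q hq i
      have h2 : g ∣ K * (cp q0 q i).natAbs := by
        have := Int.natAbs_dvd_natAbs.mpr h1
        rwa [Int.natAbs_mul, Int.natAbs_natCast, Int.natAbs_natCast] at this
      exact Int.natCast_dvd.mpr (gdvd g K _ hg h2))
  refine hcnt.trans ?_
  set G : ℕ := g / g.gcd K with hGdef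
  have hG0 : (0 : ℝ) < G := by exact_mod_cast hG
  have hGgR : (G : ℝ) ≤ g := by exact_mod_cast hGg
  have hGKR : (g : ℝ) ≤ G * K := by exact_mod_cast hGK
  have hA0 : (0 : ℝ) ≤ A := by positivity
  have hY0 : (0 : ℝ) ≤ Y := by positivity
  have e1 : (1 : ℝ) + 4 * A * Y / (c * X₁) / G ≤ L * (1 + Y / (X₁ * g)) := by
    have e2 : 4 * A * Y / (c * X₁) / G ≤ (4 * A * K / c) * (Y / (X₁ * g)) := by
      have e3 : 4 * (A : ℝ) * Y / (c * X₁) / G = (4 * A * Y / (c * X₁)) * (1 / G) := by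
        rw [mul_one_div]
      have e4 : (4 * (A : ℝ) * K / c) * (Y / (X₁ * g)) = (4 * A * Y / (c * X₁)) * (K / g) := by
        field_simp
      rw [e3, e4]
      apply mul_le_mul_of_nonneg_left _ (by positivity)
      rw [div_le_div_iff₀ hG0 hg0]
      linarith [mul_comm (G : ℝ) K]
    have e5 : (4 * (A : ℝ) * K / c) * (Y / (X₁ * g)) ≤ L * (Y / (X₁ * g)) :=
      mul_le_mul_of_nonneg_right hL2 (by positivity)
    linarith
  have e0 : (0 : ℝ) ≤ 1 + 4 * A * Y / (c * X₁) / G := by positivity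
  calc (2 * (X₂ : ℝ) + G) * (1 + 4 * A * Y / (c * X₁) / G) ^ 2
      ≤ (2 * ((X₂ : ℝ) + g)) * (L * (1 + Y / (X₁ * g))) ^ 2 := by
        apply mul_le_mul (by linarith) (pow_le_pow_left₀ e0 e1 2) (by positivity) (by positivity)
    _ = _ := by ring

end Pool.Agent.W654.QO
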